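import Pool.Agent.Y674.HY.Stm2

set_option autoImplicit false

/-! Project HY: small integral solutions of linear equations by minors (CRAM). -/

namespace Pool.Agent.Y832.HY

open Pool.Agent.Y674.HY NumberField

/-- Solutions from a maximal nonvanishing minor, over any domain. -/
theorem minors {R : Type} [CommRing R] [IsDomain R] {p q : ℕ} (hpq : p < q)
    (A : Matrix (Fin p) (Fin q) R) :
    ∃ (s : ℕ) (f : Fin s → Fin p) (t : Fin (s + 1) → Fin q), s ≤ p ∧ Function.Injective t ∧
      (A.submatrix f (fun j => t (Fin.succAbove 0 j))).det ≠ 0 ∧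
      ∀ i, ∑ j : Fin (s + 1), A i (t j) * ((-1) ^ (j : ℕ) *
        (A.submatrix f (fun l => t (Fin.succAbove j l))).det) = 0 := by
  classical
  let P : ℕ → Prop := fun s => ∃ (f : Fin s → Fin p) (t : Fin s → Fin q), (A.submatrix f t).det ≠ 0
  have hP0 : P 0 := ⟨Fin.elim0, Fin.elim0, by simp⟩
  have hinjf : ∀ (s : ℕ) (f : Fin s → Fin p) (t : Fin s → Fin q), (A.submatrix f t).det ≠ 0 →
      Function.Injective f := by
    intro s f t h i j hij
    by_contra hne
    apply h
    exact Matrix.det_zero_of_row_eq hne (by ext k; simp [hij])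
  have hinjt : ∀ (s : ℕ) (f : Fin s → Fin p) (t : Fin s → Fin q), (A.submatrix f t).det ≠ 0 →
      Function.Injective t := by
    intro s f t h i j hij
    by_contra hne
    apply h
    exact Matrix.det_zero_of_column_eq hne (by intro k; simp [hij])
  have hPle : ∀ s, P s → s ≤ p := by
    rintro s ⟨f, t, h⟩
    have := Fintype.card_le_of_injective f (hinjf s f t h)
    simpa using this
  have hex : ∃ s, ¬ P s := ⟨p + 1, fun h => by have := hPle _ h; omega⟩
  obtain ⟨s, hs, hs1⟩ : ∃ s, P s ∧ ¬ P (s + 1) := by
    have h1 := Nat.find_spec hex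
    have h2 : Nat.find hex ≠ 0 := by
      intro h
      rw [h] at h1
      exact h1 hP0
    refine ⟨Nat.find hex - 1, ?_, ?_⟩
    · by_contra h
      have := Nat.find_min' hex h
      omega
    · have : Nat.find hex - 1 + 1 = Nat.find hex := by omega
      rw [this]
      exact h1
  obtain ⟨f, t, hft⟩ := hs
  have hsp : s ≤ p := hPle s ⟨f, t, hft⟩
  have ht := hinjt s f t hft
  obtain ⟨u, hu⟩ : ∃ u, ∀ j, t j ≠ u := by
    by_contra h
    push Not at h
    have := Fintype.card_le_of_surjective t h
    simp at this
    omega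
  refine ⟨s, f, Fin.cons u t, hsp, ?_, ?_, ?_⟩
  · rw [Fin.cons_injective_iff]
    refine ⟨?_, ht⟩
    rintro ⟨j, hj⟩
    exact hu j hj
  · simpa using hft
  · intro i
    have h1 : (A.submatrix (Fin.cons i f : Fin (s + 1) → Fin p)
        (Fin.cons u t : Fin (s + 1) → Fin q)).det = 0 := by
      by_contra h
      exact hs1 ⟨_, _, h⟩
    rw [Matrix.det_succ_row_zero] at h1
    rw [← h1]
    refine Finset.sum_congr rfl fun j _ => ?_
    have e1 : (A.submatrix (Fin.cons i f : Fin (s + 1) → Fin p)
        (Fin.cons u t : Fin (s + 1) → Fin q)).submatrix Fin.succ j.succAbove =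
        A.submatrix f (fun l => (Fin.cons u t : Fin (s + 1) → Fin q) (Fin.succAbove j l)) := by
      ext a b
      simp
    rw [e1, Matrix.submatrix_apply, Fin.cons_zero]
    ring

/-- CRAM -/
theorem cram : CRAM := by
  classical
  intro L _ _ p q hpq A W hW hA
  obtain ⟨s, f, t, hsp, ht, h0, hz⟩ := minors hpq A
  set v : Fin (s + 1) → 𝓞 L := fun j => (-1) ^ (j : ℕ) *
    (A.submatrix f (fun l => t (Fin.succAbove j l))).det with hv
  have hv0 : v 0 ≠ 0 := by
    rw [hv]
    simpa using h0
  refine ⟨Function.extend t v 0, ?_, ?_, ?_⟩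
  · intro h
    have := congrFun h (t 0)
    rw [ht.extend_apply] at this
    exact hv0 this
  · funext i
    rw [Pi.zero_apply, ← hz i]
    unfold Matrix.mulVec dotProduct
    have e1 : ∑ j : Fin (s + 1), A i (t j) * v j =
        ∑ k ∈ Finset.univ.image t, A i k * Function.extend t v 0 k := by
      rw [Finset.sum_image fun a _ b _ hab => ht hab]
      refine Finset.sum_congr rfl fun j _ => ?_
      rw [ht.extend_apply]
    rw [e1]
    symm
    refine Finset.sum_subset (Finset.subset_univ _) fun k _ hk => ?_
    rw [Function.extend_apply' _ _ _ (fun ⟨j, hj⟩ => hk (Finset.mem_image.2 ⟨j,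
      Finset.mem_univ _, hj⟩))]
    simp
  · intro σ k
    have hq1 : (1 : ℝ) ≤ q := by
      have : 1 ≤ q := by omega
      exact_mod_cast this
    have hqW : 1 ≤ (q : ℝ) * W := one_le_mul_of_one_le_of_one_le hq1 hW
    by_cases hk : ∃ j, t j = k
    · obtain ⟨j, rfl⟩ := hk
      rw [ht.extend_apply]
      let τ : 𝓞 L →+* ℂ := σ.comp (algebraMap (𝓞 L) L)
      have h1 : σ (v j : L) = (-1) ^ (j : ℕ) *
          ((A.submatrix f (fun l => t (Fin.succAbove j l))).map τ).det := by
        have h2 : σ (v j : L) = τ (v j) := rfl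
        rw [h2, hv]
        simp only [map_mul, map_pow, map_neg, map_one]
        rw [RingHom.map_det]
        rfl
      rw [h1, norm_mul, norm_pow, norm_neg, norm_one, one_pow, one_mul]
      have h2 : ‖((A.submatrix f (fun l => t (Fin.succAbove j l))).map τ).det‖ ≤
          (s.factorial : ℝ) * W ^ s := by
        rw [Matrix.det_apply]
        calc _ ≤ ∑ g : Equiv.Perm (Fin s), ‖Equiv.Perm.sign g •
              ∏ i, ((A.submatrix f (fun l => t (Fin.succAbove j l))).map τ) (g i) i‖ :=
              norm_sum_le _ _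
          _ ≤ ∑ g : Equiv.Perm (Fin s), W ^ s := by
              refine Finset.sum_le_sum fun g _ => ?_
              have h3 : ‖Equiv.Perm.sign g •
                ∏ i, ((A.submatrix f (fun l => t (Fin.succAbove j l))).map τ) (g i) i‖ =
                ‖∏ i, ((A.submatrix f (fun l => t (Fin.succAbove j l))).map τ) (g i) i‖ := by
                rcases Int.units_eq_one_or (Equiv.Perm.sign g) with h | h <;> rw [h] <;> simp
              rw [h3, norm_prod]
              calc _ ≤ ∏ i : Fin s, W := by
                    refine Finset.prod_le_prod (fun i _ => norm_nonneg _) fun i _ => ?_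
                    exact hA σ _ _
                _ = W ^ s := by simp
          _ = (s.factorial : ℝ) * W ^ s := by
              rw [Finset.sum_const, Finset.card_univ, Fintype.card_perm, Fintype.card_fin,
                nsmul_eq_mul]
      refine h2.trans ?_
      have h3 : (s.factorial : ℝ) ≤ (q : ℝ) ^ s := by
        have h4 : s.factorial ≤ s ^ s := Nat.factorial_le_pow s
        have h5 : s ^ s ≤ q ^ s := Nat.pow_le_pow_left (by omega) s
        exact_mod_cast h4.trans h5
      calc (s.factorial : ℝ) * W ^ s ≤ (q : ℝ) ^ s * W ^ s := by gcongr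
        _ = ((q : ℝ) * W) ^ s := (mul_pow _ _ _).symm
        _ ≤ ((q : ℝ) * W) ^ q := pow_le_pow_right₀ hqW (by omega)
    · rw [Function.extend_apply' _ _ _ hk]
      simp only [Pi.zero_apply]
      have : σ ((0 : 𝓞 L) : L) = 0 := by simp
      rw [this, norm_zero]
      positivity

end Pool.Agent.Y832.HY
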