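import Pool.Agent.Y674.HY.Stm2

set_option autoImplicit false

/-! Project HY: the products of square roots of different linear polynomials are linearly
independent (INDP). -/

namespace Pool.Agent.Y832.HY

open Pool.Agent.Y674.HY Polynomial

/-- the field `M(T)` for `T ^ 2 ∈ M` -/
def sqExt {E : Type} [Field E] (M : Subfield E) (T : E) (hT : T ^ 2 ∈ M) : Subfield E where
  carrier := {x | ∃ c ∈ M, ∃ d ∈ M, x = c + d * T}
  mul_mem' := by
    rintro x y ⟨c, hc, d, hd, rfl⟩ ⟨c', hc', d', hd', rfl⟩
    exact ⟨c * c' + d * d' * T ^ 2, add_mem (mul_mem hc hc') (mul_mem (mul_mem hd hd') hT),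
      c * d' + c' * d, add_mem (mul_mem hc hd') (mul_mem hc' hd), by ring⟩
  one_mem' := ⟨1, one_mem _, 0, zero_mem _, by ring⟩
  add_mem' := by
    rintro x y ⟨c, hc, d, hd, rfl⟩ ⟨c', hc', d', hd', rfl⟩
    exact ⟨c + c', add_mem hc hc', d + d', add_mem hd hd', by ring⟩
  zero_mem' := ⟨0, zero_mem _, 0, zero_mem _, by ring⟩
  neg_mem' := by
    rintro x ⟨c, hc, d, hd, rfl⟩
    exact ⟨-c, neg_mem hc, -d, neg_mem hd, by ring⟩
  inv_mem' := by
    rintro x ⟨c, hc, d, hd, rfl⟩
    by_cases hx : c + d * T = 0
    · rw [hx, inv_zero]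
      exact ⟨0, zero_mem _, 0, zero_mem _, by ring⟩
    by_cases hN : c ^ 2 - d ^ 2 * T ^ 2 = 0
    · have h1 : (c + d * T) * (c - d * T) = 0 := by rw [← hN]; ring
      have h2 : c - d * T = 0 := (mul_eq_zero.1 h1).resolve_left hx
      have h3 : d ≠ 0 := by
        rintro rfl
        apply hx
        rw [zero_mul, sub_zero] at h2
        rw [h2]
        ring
      have h4 : T ∈ M := by
        have : T = c / d := by
          field_simp
          linear_combination -h2
        rw [this]
        exact div_mem hc hd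
      exact ⟨(c + d * T)⁻¹, inv_mem (add_mem hc (mul_mem hd h4)), 0, zero_mem _, by ring⟩
    · have hNM : c ^ 2 - d ^ 2 * T ^ 2 ∈ M :=
        sub_mem (pow_mem hc 2) (mul_mem (pow_mem hd 2) hT)
      refine ⟨c / (c ^ 2 - d ^ 2 * T ^ 2), div_mem hc hNM, -d / (c ^ 2 - d ^ 2 * T ^ 2),
        div_mem (neg_mem hd) hNM, ?_⟩
      refine inv_eq_of_mul_eq_one_left ?_
      field_simp
      ring

theorem mem_sqExt {E : Type} [Field E] {M : Subfield E} {T : E} {hT : T ^ 2 ∈ M} {x : E} :
    x ∈ sqExt M T hT ↔ ∃ c ∈ M, ∃ d ∈ M, x = c + d * T := Iff.rfl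

theorem le_sqExt {E : Type} [Field E] {M : Subfield E} {T : E} {hT : T ^ 2 ∈ M} {x : E}
    (hx : x ∈ M) : x ∈ sqExt M T hT := ⟨x, hx, 0, zero_mem _, by ring⟩

/-- Kummer theory for square roots -/
theorem kummer {E : Type} [Field E] (h2 : (2 : E) ≠ 0) {ι : Type} [DecidableEq ι] (T : ι → E)
    (S : Finset ι) : ∀ M : Subfield E, (∀ i ∈ S, T i ^ 2 ∈ M) →
    (∀ J ⊆ S, J.Nonempty → ∏ i ∈ J, T i ∉ M) → ∀ p : Finset ι → E, (∀ I, p I ∈ M) →
    ∑ I ∈ S.powerset, p I * ∏ i ∈ I, T i = 0 → ∀ I ∈ S.powerset, p I = 0 := by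
  induction S using Finset.induction_on with
  | empty =>
    intro M _ _ p _ h I hI
    simp only [Finset.powerset_empty, Finset.sum_singleton, Finset.prod_empty, mul_one] at h
    rw [Finset.powerset_empty, Finset.mem_singleton] at hI
    rw [hI, h]
  | @insert r S hr ih =>
    intro M hM hJ p hp hsum
    have hrM : T r ^ 2 ∈ M := hM r (Finset.mem_insert_self r S)
    have hrn : T r ∉ M := by
      have := hJ {r} (by simp) (Finset.singleton_nonempty r)
      simpa using this
    have key := ih (sqExt M (T r) hrM) (fun i hi => le_sqExt (hM i (Finset.mem_insert_of_mem hi)))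
      (by
        intro J hJS hJne hmem
        obtain ⟨c, hc, d, hd, hcd⟩ := mem_sqExt.1 hmem
        have hsq : (∏ i ∈ J, T i) ^ 2 ∈ M := by
          rw [← Finset.prod_pow]
          exact prod_mem fun i hi => hM i (Finset.mem_insert_of_mem (hJS hi))
        have hrJ : r ∉ J := fun h => hr (hJS h)
        by_cases hd0 : d = 0
        · rw [hd0, zero_mul, add_zero] at hcd
          exact hJ J (hJS.trans (Finset.subset_insert r S)) hJne (hcd ▸ hc)
        by_cases hc0 : c = 0
        · rw [hc0, zero_add] at hcd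
          apply hJ (insert r J) (Finset.insert_subset_insert r hJS) (Finset.insert_nonempty r J)
          rw [Finset.prod_insert hrJ, hcd]
          have : T r * (d * T r) = d * T r ^ 2 := by ring
          rw [this]
          exact mul_mem hd hrM
        apply hrn
        have h3 : 2 * c * d * T r ∈ M := by
          have : 2 * c * d * T r = (∏ i ∈ J, T i) ^ 2 - c ^ 2 - d ^ 2 * T r ^ 2 := by
            rw [hcd]; ring
          rw [this]
          exact sub_mem (sub_mem hsq (pow_mem hc 2)) (mul_mem (pow_mem hd 2) hrM)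
        have h2M : (2 : E) ∈ M := by
          have : (2 : E) = 1 + 1 := by norm_num
          rw [this]
          exact add_mem (one_mem M) (one_mem M)
        have h4 : T r = (2 * c * d * T r) / (2 * c * d) := by
          field_simp
        rw [h4]
        exact div_mem h3 (mul_mem (mul_mem h2M hc) hd))
      (fun I => p I + p (insert r I) * T r) (fun I => ⟨p I, hp I, p (insert r I), hp _, rfl⟩)
      (by
        rw [Finset.sum_powerset_insert hr, ← Finset.sum_add_distrib] at hsum
        rw [← hsum]
        refine Finset.sum_congr rfl fun I hI => ?_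
        have hrI : r ∉ I := fun h => hr (Finset.mem_powerset.1 hI h)
        rw [Finset.prod_insert hrI]
        ring)
    have hpair : ∀ I ∈ S.powerset, p I = 0 ∧ p (insert r I) = 0 := by
      intro I hI
      have h := key I hI
      have h5 : p (insert r I) = 0 := by
        by_contra hne
        apply hrn
        have : T r = -p I / p (insert r I) := by
          field_simp
          linear_combination h
        rw [this]
        exact div_mem (neg_mem (hp I)) (hp _)
      rw [h5, zero_mul, add_zero] at h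
      exact ⟨h, h5⟩
    intro I hI
    rw [Finset.powerset_insert, Finset.mem_union, Finset.mem_image] at hI
    rcases hI with hI | ⟨J, hJ, rfl⟩
    · exact (hpair I hI).1
    · exact (hpair J hJ).2

/-- products of different linear polynomials are no squares -/
theorem no_square {F : Type} [Field F] {e : ℕ} {z : Fin e → F} (hz : Function.Injective z)
    {J : Finset (Fin e)} (hJ : J.Nonempty) (a : RatFunc F)
    (h : a ^ 2 = ∏ i ∈ J, (RatFunc.X - RatFunc.C (z i))) : False := by
  have hP : (∏ i ∈ J, (RatFunc.X - RatFunc.C (z i)) : RatFunc F) =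
      algebraMap F[X] (RatFunc F) (∏ i ∈ J, (X - C (z i))) := by
    rw [map_prod]
    simp
  set P : F[X] := ∏ i ∈ J, (X - C (z i)) with hPdef
  have hsep : P.Separable := by
    rw [hPdef, separable_prod_X_sub_C_iff']
    intro x _ y _ hxy
    exact hz hxy
  have hsf : Squarefree P := hsep.squarefree
  -- clear denominators
  have hq : algebraMap F[X] (RatFunc F) a.denom ≠ 0 := by
    simpa using RatFunc.denom_ne_zero a
  have h1 : a.num ^ 2 = a.denom ^ 2 * P := by
    have h2 : algebraMap F[X] (RatFunc F) (a.num ^ 2) =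
        algebraMap F[X] (RatFunc F) (a.denom ^ 2 * P) := by
      rw [map_mul, map_pow, map_pow, ← hP, ← h]
      have h3 : algebraMap F[X] (RatFunc F) a.num = a * algebraMap F[X] (RatFunc F) a.denom :=
        (div_eq_iff hq).1 (RatFunc.num_div_denom a)
      rw [h3]
      ring
    exact IsFractionRing.injective F[X] (RatFunc F) h2
  have h2 : a.denom ^ 2 ∣ a.num ^ 2 := ⟨P, h1⟩
  have h3 : a.denom ∣ a.num := (IsIntegrallyClosed.pow_dvd_pow_iff two_ne_zero).1 h2
  obtain ⟨c, hc⟩ := h3
  have h4 : c ^ 2 = P := by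
    rw [hc, mul_pow] at h1
    exact mul_left_cancel₀ (pow_ne_zero 2 (RatFunc.denom_ne_zero a)) h1
  have h5 : IsUnit c := hsf c (by rw [← sq, h4])
  have h6 : IsUnit P := by rw [← h4]; exact h5.pow 2
  obtain ⟨j, hj⟩ := hJ
  have h7 : (X - C (z j)) ∣ P := Finset.dvd_prod_of_mem _ hj
  exact (not_isUnit_X_sub_C (z j)) (isUnit_of_dvd_unit h7 h6)

/-- INDP -/
theorem indp : INDP := by
  classical
  intro F _ _ e z hz E _ _ T hT
  rw [Fintype.linearIndependent_iff]
  intro g hg I
  have hinj : Function.Injective (algebraMap (RatFunc F) E) := (algebraMap (RatFunc F) E).injective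
  have h2 : (2 : E) ≠ 0 := by
    have : (2 : E) = algebraMap (RatFunc F) E 2 := (map_ofNat (algebraMap (RatFunc F) E) 2).symm
    rw [this]
    intro h
    have h3 : (2 : RatFunc F) = 0 := hinj (by rw [h, map_zero])
    have h4 : (2 : RatFunc F) = RatFunc.C (2 : F) := (map_ofNat (RatFunc.C (K := F)) 2).symm
    rw [h4] at h3
    have h5 : (2 : F) = 0 := RatFunc.C.injective (by rw [h3, map_zero])
    exact two_ne_zero h5
  have key := kummer h2 T Finset.univ (algebraMap (RatFunc F) E).fieldRange
    (fun i _ => ⟨_, (hT i).symm⟩) (by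
      rintro J - hJ ⟨a, ha⟩
      refine no_square hz hJ a (hinj ?_)
      rw [map_pow, ha, ← Finset.prod_pow, map_prod]
      exact Finset.prod_congr rfl fun i _ => hT i)
    (fun I => algebraMap (RatFunc F) E (g I)) (fun I => ⟨g I, rfl⟩) (by
      rw [Finset.powerset_univ, ← hg]
      refine Finset.sum_congr rfl fun I _ => ?_
      rw [Algebra.smul_def]) I (by simp)
  exact hinj (by rw [key, map_zero])

end Pool.Agent.Y832.HY
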