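import Pool.Agent.Y674.HY.Stm2

set_option autoImplicit false

/-! Project HY: counting orbits of sign patterns (NTR). -/

namespace Pool.Agent.Y832.HY

open Pool.Agent.Y674.HY

/-- NTR -/
theorem ntr : NTR := by
  intro G _ _ e he π ξ hπ hξ hπ1 S ε₀ hS hfix
  by_contra hcon
  push Not at hcon
  have hall : ∀ η : Fin e → ℤˣ, ∃ g, ξ g = η ∨ ξ g = -η := by
    intro η
    obtain ⟨g, hg⟩ := hcon η
    refine ⟨g, ?_⟩
    by_cases h : ξ g = η
    · exact Or.inl h
    · exact Or.inr (hg h)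
  -- the right action
  let act : (Fin e → ℤˣ) → G → (Fin e → ℤˣ) := fun ε g i => ε (π g i) * ξ g i
  have act_mul : ∀ ε g h, act (act ε g) h = act ε (g * h) := by
    intro ε g h
    funext i
    simp only [act, hπ, hξ]
    rw [mul_assoc, mul_comm (ξ g (π h i))]
  have act_neg : ∀ ε g, act (-ε) g = -(act ε g) := by
    intro ε g
    funext i
    simp [act]
  have hξ1 : ∀ i, ξ 1 i = 1 := by
    intro i
    have h := hξ 1 1 i
    rw [hπ1, mul_one] at h
    exact (mul_eq_left.1 h.symm)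
  have act_one : ∀ ε, act ε 1 = ε := by
    intro ε
    funext i
    simp only [act, hπ1, hξ1, mul_one]
  have act1 : ∀ g, act 1 g = ξ g := by
    intro g
    funext i
    simp [act]
  -- elements of `S`
  have hSf : ∀ g ∈ S, act ε₀ g = ε₀ ∨ act ε₀ g = -ε₀ := by
    intro g hg
    have hsq : ∀ u : ℤˣ, u * u = 1 := Int.units_mul_self
    rcases hfix g hg with h | h
    · left
      funext i
      have h1 := h i
      simp only [act]
      rw [← h1, mul_assoc, hsq, mul_one]
    · right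
      funext i
      have h1 := h i
      simp only [act]
      have h2 : ε₀ (π g i) = -(ε₀ i * ξ g i) := by rw [h1, neg_neg]
      rw [h2, Pi.neg_apply, neg_mul, mul_assoc, hsq, mul_one]
  -- every pattern is `± act ε₀ g`
  have htr : ∀ ω : Fin e → ℤˣ, ∃ g, act ε₀ g = ω ∨ act ε₀ g = -ω := by
    intro ω
    obtain ⟨g0, h0⟩ := hall ε₀
    obtain ⟨g1, h1⟩ := hall ω
    refine ⟨g0⁻¹ * g1, ?_⟩
    rw [← act_mul]
    have h2 : act (ξ g0) g0⁻¹ = 1 := by
      rw [← act1, act_mul, mul_inv_cancel, act_one]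
    have h3 : act ε₀ g0⁻¹ = 1 ∨ act ε₀ g0⁻¹ = -1 := by
      rcases h0 with h0 | h0
      · left
        rw [← h0, h2]
      · right
        have : ε₀ = -ξ g0 := by rw [h0, neg_neg]
        rw [this, act_neg, h2]
    rcases h3 with h3 | h3 <;> rcases h1 with h1 | h1 <;> rw [h3]
    · left; rw [act1, h1]
    · right; rw [act1, h1]
    · right; rw [act_neg, act1, h1]
    · left; rw [act_neg, act1, h1, neg_neg]
  -- a surjection
  let Φ : (G ⧸ S) × ℤˣ → (Fin e → ℤˣ) := fun c i => c.2 * act ε₀ (c.1.out)⁻¹ i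
  have hΦ : Function.Surjective Φ := by
    intro ω
    obtain ⟨g, hg⟩ := htr ω
    have h1 : ((QuotientGroup.mk g⁻¹ : G ⧸ S).out)⁻¹ * g⁻¹ ∈ S := by
      rw [← QuotientGroup.eq, QuotientGroup.out_eq']
    set r := (QuotientGroup.mk g⁻¹ : G ⧸ S).out with hr
    -- `g * r ∈ S`
    have h2 : g * r ∈ S := by
      have := S.inv_mem h1
      rwa [mul_inv_rev, inv_inv, inv_inv] at this
    have h3 : act ε₀ g = act (act ε₀ (g * r)) r⁻¹ := by
      rw [act_mul, mul_assoc, mul_inv_cancel, mul_one]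
    have h4 : act ε₀ g = act ε₀ r⁻¹ ∨ act ε₀ g = -act ε₀ r⁻¹ := by
      rw [h3]
      rcases hSf _ h2 with h | h <;> rw [h]
      · left; rfl
      · right; rw [act_neg]
    have h5 : act ε₀ r⁻¹ = ω ∨ act ε₀ r⁻¹ = -ω := by
      rcases h4 with h4 | h4 <;> rcases hg with hg | hg
      · left; rw [← h4, hg]
      · right; rw [← h4, hg]
      · right; rw [← hg, h4, neg_neg]
      · left
        have : ω = -(act ε₀ g) := by rw [hg, neg_neg]
        rw [this, h4, neg_neg]
    rcases h5 with h5 | h5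
    · refine ⟨(QuotientGroup.mk g⁻¹, 1), ?_⟩
      funext i
      simp only [Φ, ← hr, h5, one_mul]
    · refine ⟨(QuotientGroup.mk g⁻¹, -1), ?_⟩
      funext i
      simp only [Φ, ← hr, h5, Pi.neg_apply, neg_mul, one_mul, neg_neg]
  have hcard := Nat.card_le_card_of_surjective Φ hΦ
  have h1 : Nat.card (Fin e → ℤˣ) = 2 ^ e := by
    rw [Nat.card_eq_fintype_card, Fintype.card_fun, Fintype.card_units_int, Fintype.card_fin]
  have h2 : Nat.card ((G ⧸ S) × ℤˣ) = S.index * 2 := by
    rw [Nat.card_prod, Nat.card_eq_fintype_card (α := ℤˣ), Fintype.card_units_int]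
    rfl
  rw [h1, h2] at hcard
  have h3 : 2 ^ e = 2 ^ (e - 1) * 2 := by
    rw [← pow_succ]
    congr 1
    omega
  omega

end Pool.Agent.Y832.HY
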